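import Mathlib

namespace Pool.Agent.Results.MP_59f064_al.HigherPowers

/-- `a` is von Neumann regular. -/
def VNReg {R : Type*} [Ring R] (a : R) : Prop := ∃ x : R, a = a * x * a

/-- `R` is pi-regular: every element has a von Neumann regular positive power. -/
def PiRegular (R : Type*) [Ring R] : Prop := ∀ a : R, ∃ n : ℕ, 1 ≤ n ∧ VNReg (a ^ n)

/-- In a pi-regular ring every element `a` (regular or not) has von Neumann regular powers
`a ^ k` with `k` an arbitrarily large multiple of any prescribed positive integer. -/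
theorem result {R : Type*} [Ring R] (hR : PiRegular R) (a : R) (m : ℕ) (hm : 1 ≤ m) :
    ∃ k : ℕ, m ≤ k ∧ m ∣ k ∧ VNReg (a ^ k) := by
  obtain ⟨n, hn, x, hx⟩ := hR (a ^ m)
  refine ⟨m * n, Nat.le_mul_of_pos_right m hn, dvd_mul_right m n, x, ?_⟩
  rw [pow_mul]
  exact hx

end Pool.Agent.Results.MP_59f064_al.HigherPowers
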